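import Pool.Agent.X227.MM.Abs

/-!
# The absolute Hodge conjecture for products of any variety with varieties of symplectic type

Let `W` be the cohomology of the complex manifolds of the smooth projective varieties over an
algebraically closed field `k ⊆ ℂ` with complex coefficients, with its rational Hodge structures
(`HodgeData`) and its comparison, through de Rham and étale cohomology, with the cohomologies for the
other embeddings of `k` (`Embeddings`; for `k = ℂ` these are the cohomologies of the conjugate
varieties). A Hodge class is absolute if for every other embedding it is
related by the comparison to a Hodge class; `AllAbsolute` says that all Hodge classes on a variety, of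
all degrees, are absolute.

Let `X i` be any family of odd-dimensional varieties, which may be infinite, such that homological and
numerical equivalence coincide on `X i`, the transcendental cohomology `T i` (the orthogonal
complement of all algebraic classes) is concentrated in the middle degree and not zero, the
Mumford-Tate group acts irreducibly on the Lie algebra of the operators on `T i` which are skew for
the intersection form, and these adjoint representations are pairwise not isomorphic (examples:
general complete intersections of odd dimension). Let `Z` be ANY variety; nothing is supposed
about its Hodge structure.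

(1) There is a finite set `B` of indices with `∑ dim T i ≤ dim H(Z)`, none of them separated from `Z`
by Hodge types, such that all Hodge classes on the product of `Z` with any powers of the `X i` are
absolute if and only if this holds for those subproducts with `i ∈ B` which are small: for some
degree `m` of the right parity the product of the numbers (exponent of `X i`) + 1 and the sum of the
`dim T i`, over the `i` which occur, are at most the Betti number `b_m(Z)`, and the sum of the numbers
`min |p - q|`, over the Hodge types `(p, q)` of the `T i`, is bounded by `m` and `2 dim Z - m`. So for
given `Z` one has to check finitely many products in order to know the conjecture for infinitely many.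

(2) If all `X i` are separated from `Z` by Hodge types (`TypeSep`: the cohomology of `Z` is generated
by pieces of width at most `N`, and `T i` has a Hodge type `(p, q)` with `p - q > N`; `N = 1` if `Z` is
an abelian variety), then the conjecture for all powers of the product of `Z` with any powers of the
`X i` is equivalent to the conjecture for all powers of `Z`. So it holds, by the theorem of Deligne,
if `Z` is an abelian variety and each `T i` has a Hodge type with `p - q > 1`.

(3) All Hodge classes on all products of powers of the `X i` are absolute.
-/

open CategoryTheory AlgebraicGeometry

universe u

namespace Pool.Agent.Results.MP_e2e4f5_ag.AbsoluteHodgeProducts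

open Pool.Agent.H914 Pool.Agent.H914.VarClass Pool.Agent.H914.VarClass.Obj Pool.Agent.Y132.AH
  Pool.Agent.X227.MM

variable {k : Type u} [Field k] {𝒱 : VarClass k} {ops : CycleOps 𝒱}

theorem result (W : WeilCohomology.{u, 0} ops) [IsAlgClosed W.K] (Ψ : HodgeData W)
    (E : Embeddings W) {ι : Type} [DecidableEq ι] (X : ι → 𝒱.Obj) (hX : SpFamily Ψ X)
    (Z : 𝒱.Obj) :
    (∃ B : Finset ι, ∑ i ∈ B, trDim W (X i) ≤ totDim W Z ∧ (∀ i ∈ B, ¬TypeSep Ψ (X i) Z) ∧
      ∀ L : List ι, AllAbsolute Ψ E (prodList X Z L) ↔
        ∀ L' : List ι, L'.Sublist L → SmallHodge Ψ X Z B L' →
          AllAbsolute Ψ E (prodList X Z L')) ∧
    ((∀ i, TypeSep Ψ (X i) Z) →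
      ∀ L : List ι, (AbsoluteAll Ψ E (prodList X Z L) ↔ AbsoluteAll Ψ E Z)) ∧
    (Z.dim = 0 → ∀ L : List ι, AbsoluteAll Ψ E (prodList X Z L)) :=
  ⟨abs_general Ψ E Z hX, fun h1 L => abs_separated Ψ E Z hX h1 L,
    fun hZ L => abs_products Ψ E hZ hX L⟩

end Pool.Agent.Results.MP_e2e4f5_ag.AbsoluteHodgeProducts
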