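import Pool.Agent.X120.BM.Forms

/-!
# The absolute Hodge conjecture, de Rham and `ℓ`-adic part, for products of any variety `Y` and of the fibres over `b_i^(-t_i)` of
# families of Calabi-Yau type with big symplectic monodromy

Let `V_i`, `1 ≤ i ≤ k`, be variations of Hodge structure with `h^{w_i, 0} = 1` (of Calabi-Yau type) over the projective line without finitely many points, which come from families over `ℚ`, with a
nondegenerate alternating form, such that the monodromy group is dense in a symplectic group. The fibre over `x = 0` may be smooth or degenerate: we suppose that near `x = 0` the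
period matrix is `L_i(log (1/x)) P_i(x)`, where the entries of `P_i` are polynomials with any complex coefficients in a system of G-functions with rational coefficients which are solutions of a
differential system with a regular singularity with rational exponents at infinity, and the entries of `L_i(u)` are polynomials. (For a smooth fibre over `0` the entries of a fundamental matrix of
solutions of the Gauss-Manin system over `ℚ(x)` at `0` are such G-functions, and `L_i = 1`. If the monodromy at `0` is unipotent then `L_i(u) = exp(u M_i)`.) Let `X_i` be the fibre over the rational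
point `b_i^(-t_i)`, and let `Y` be any smooth projective variety over `ℂ`. `V_0` is the total cohomology of `Y` (or the sum of any finite number of cohomology groups of varieties), of dimension `n_0`, and `Φ_0` its
Hodge operator, the multiplication by `p` on `H^{p,q}`.

We describe the classes on `Y^r × ∏ X_(τ(l))` with values in the interesting part as rational multilinear forms `T` on `V_0^r × V_(τ(1)) × … × V_(τ(m))`
(by Poincaré duality and the Künneth formula). A class is a Hodge class if and only if the form vanishes on vectors of type `(p_l, q_l)` unless `∑ p_l` is equal to a given number `c` (half of the total weight),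
that is, if it is an eigenvector with eigenvalue `c` of the derivation given by the Hodge operators.

Let `σ` be an automorphism of `ℂ` and let `V_0'` be the cohomology of `Y_σ`; the `X_i` are defined over `ℚ`, so `(X_i)_σ = X_i`. Let `K = ℂ` (de Rham part) or `K = ℚ_ℓ` (`ℓ`-adic part). The map `v ↦ c_{Y_σ}^{-1}((c_Y v)_σ)` on
the rational cohomology, with values in the cohomology with coefficients in `K`, extends to a `K`-linear isomorphism `g_0 : V_0 ⊗ K → V_0' ⊗ K`, and there are similar isomorphisms `g_i : V_i ⊗ K → V_i ⊗ K`. They respect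
the polarisations up to the factor `χ^(w_i)`, where `χ` describes the action on the Tate structure (`χ = σ(2πi) / 2πi` in the de Rham part, the cyclotomic character in the `ℓ`-adic part).

**Theorem.** Let `b_i ≥ 2` be integers. There is a constant `C`, which depends only on the G-functions, the ranks, the degrees `e` of the polynomials, the `b_i` and on `n_0`, such that for all `V_0` and all such
`V_i`, for all but `C N^(k-1) log N` of the `N^k` points `x = (b_1^(-t_1), …, b_k^(-t_k))`, `1 ≤ t_i ≤ N` (for `k = 1` for all but `C log N` of the points `b^(-t)`), for all fields `K` of characteristic zero and all such comparison isomorphisms: if for every Hodge class `v` on the powers of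
`Y` the class `g_0(v)` is a Hodge class on `Y_σ`, then the same is true for all Hodge classes on all `V_0^r × V_(τ(1)) × … × V_(τ(m))`.

So both parts of the conjecture for all `Y^r × X_1^(a_1) × … × X_k^(a_k)` are equivalent to the conjecture for the powers of `Y` (if the rest of the cohomology of the `X_i` is generated by algebraic classes, as for
many families of Calabi-Yau threefolds). For example they hold if `Y` is an abelian variety (Deligne), in particular if `Y` is a point. In `MP_4e1cf2_ag.FibresAtPowersTimesVariety` the same is proved for hypergeometric families near their maximally unipotent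
degeneration. Here the families and the fibre over `0` are arbitrary, and the comparison isomorphisms are over any field. For general families of Calabi-Yau type with big monodromy nothing was known for the points `b^(-t)`.

Proof. By the counting theorem on geometric sequences the Mumford-Tate group contains `1 × ∏ Sp(V_i)` for these points (`Pool.Agent.X120.HG`, `Pool.Agent.X120.BM`). So the Hodge forms are combinations of products of
Hodge forms on `V_0^r` and of polarisations, by the first fundamental theorem for symplectic Lie algebras.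
-/

set_option autoImplicit false

open Pool.Agent.X120.BM

namespace Pool.Agent.Results.MP_e2e4f5_ag.BigMonodromyTimesVariety

section
variable {n₀ k : ℕ} {n : Fin k → ℕ} {K : Type} [Field K] [Algebra ℚ K]

/-- All Hodge forms on the `V_0^r` are mapped by `g₀` to Hodge forms of the conjugate structure with the Hodge operator `Φ₀'`
(up to the factor given by the Tate structure). -/
def Conjugate₀ (Φ₀ Φ₀' : Matrix (Fin n₀) (Fin n₀) ℂ) (g₀ : Matrix (Fin n₀) (Fin n₀) K) (χ : K) : Prop :=
  ∀ (r : ℕ) (q : ℤ) (v : (Fin r → Fin n₀) → ℚ), IsHodgeForm₀ Φ₀ q v → ∃ v' : (Fin r → Fin n₀) → ℚ,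
    IsHodgeForm₀ Φ₀' q v' ∧ transport₀ g₀ (castForm₀ K v) = χ ^ q • castForm₀ K v'

/-- The same for all Hodge forms on the `V_0^r × V_(τ(1)) × … × V_(τ(m))`. -/
def Conjugate (Φ₀ Φ₀' : Matrix (Fin n₀) (Fin n₀) ℂ) (Φ : ∀ i, Matrix (Fin (n i)) (Fin (n i)) ℂ)
    (g₀ : Matrix (Fin n₀) (Fin n₀) K) (g : ∀ i, Matrix (Fin (n i)) (Fin (n i)) K) (χ : K) : Prop :=
  ∀ (r m : ℕ) (τ : Fin m → Fin k) (c : ℤ) (T : Form n₀ r n m ℚ), IsHodgeForm Φ₀ Φ τ c T →
    ∃ T' : Form n₀ r n m ℚ, IsHodgeForm Φ₀' Φ τ c T' ∧ transport g₀ g (castForm K T) = χ ^ c • castForm K T'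

/-- `g_i` respects the form `A_i` up to the factor `χ^(w_i)`. -/
def Respects (w : Fin k → ℕ) (A : ∀ i, Matrix (Fin (n i)) (Fin (n i)) ℚ) (g : ∀ i, Matrix (Fin (n i)) (Fin (n i)) K) (χ : K) : Prop :=
  χ ≠ 0 ∧ ∀ i, g i * (A i).map (algebraMap ℚ K) * (g i).transpose = χ ^ w i • (A i).map (algebraMap ℚ K)

end

/-- For all Hodge structures `H_i` with forms `A_i` on the fibres over `x_i = b_i^(-t_i)` (with the part of type `(w_i, 0)` given by the
period vector): the conjecture for `V_0` implies the conjecture for all `V_0^r × V_(τ(1)) × … × V_(τ(m))`, for all comparison isomorphisms over all fields. -/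
def Good {n₀ k e : ℕ} {G : Fin k → GSystem} {n : Fin k → ℕ} (Φ₀ : Matrix (Fin n₀) (Fin n₀) ℂ)
    (F : ∀ i, Periods (G i) (n i) e) (w b t : Fin k → ℕ) : Prop :=
  ∀ (A : ∀ i, Matrix (Fin (n i)) (Fin (n i)) ℚ) (H : ∀ i, ℕ → Submodule ℂ (Fin (n i) → ℂ)), IsFibre F w b t A H →
    ∀ Φ : ∀ i, Matrix (Fin (n i)) (Fin (n i)) ℂ, (∀ i, IsHodgeOperator (w i) (H i) (Φ i)) →
    ∀ (K : Type) [Field K] [Algebra ℚ K] (Φ₀' : Matrix (Fin n₀) (Fin n₀) ℂ) (g₀ : Matrix (Fin n₀) (Fin n₀) K)
      (g : ∀ i, Matrix (Fin (n i)) (Fin (n i)) K) (χ : K),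
      Respects w A g χ → Conjugate₀ Φ₀ Φ₀' g₀ χ → Conjugate Φ₀ Φ₀' Φ g₀ g χ

/-- **The theorem.** -/
theorem result (n₀ k e : ℕ) (G : Fin k → GSystem) (n : Fin k → ℕ) (b : Fin k → ℕ) (hb : ∀ i, 2 ≤ b i) :
    ∃ C : ℝ, 0 ≤ C ∧ ∀ Φ₀ : Matrix (Fin n₀) (Fin n₀) ℂ, IsSplitOperator Φ₀ →
      ∀ F : ∀ i, Periods (G i) (n i) e, ∀ w : Fin k → ℕ, ∀ N : ℕ, 2 ≤ N →
      (({t : Fin k → ℕ | (∀ i, 1 ≤ t i ∧ t i ≤ N) ∧ ¬ Good Φ₀ F w b t}.ncard : ℕ) : ℝ) * N ≤
        C * (N : ℝ) ^ k * Real.log N := by
  classical
  obtain ⟨C, hC, hcount⟩ := count n₀ e G n b hb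
  refine ⟨C, hC, ?_⟩
  intro Φ₀ hΦ₀ F w N hN
  refine hcount Φ₀ hΦ₀ F w N hN _ fun t ht => ⟨ht.1, fun hgood => ht.2 ?_⟩
  intro A H hF Φ hop K _ _ Φ₀' g₀ g χ hg h0 r m τ c T hT
  have hH : ∀ i, IsHodge (w i) (A i) (H i) := fun i => (hF i).2.1
  have hΦ := fun i => (hH i).hs.op (hop i)
  have h1 := generated_of hH (hgood A H hF) hop r m τ c T hT
  clear hT
  induction h1 using Submodule.span_induction with
  | mem x hx =>
    obtain ⟨s, e', c', v, hc', hv, rfl⟩ := hx
    obtain ⟨v', hv', hgv⟩ := h0 r _ v hv
    refine ⟨_, product_hodge hΦ e' c' hc' hv', ?_⟩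
    rw [transport_product (μ := fun i => χ ^ w i) hg.2 e' c' v, hgv]
    funext a I
    show χ ^ (c - ∑ l, (w (c' l) : ℤ)) * castForm₀ K v' a * ((∏ l, χ ^ w (c' l)) * algebraMap ℚ K (pairing A e' c' I)) =
      χ ^ c * algebraMap ℚ K (v' a * pairing A e' c' I)
    have e1 : (∏ l, χ ^ w (c' l)) = χ ^ (∑ l, (w (c' l) : ℤ)) := by
      rw [Finset.prod_pow_eq_pow_sum, ← zpow_natCast]
      push_cast
      rfl
    rw [e1, map_mul]
    have e2 : χ ^ c = χ ^ (c - ∑ l, (w (c' l) : ℤ)) * χ ^ (∑ l, (w (c' l) : ℤ)) := by
      rw [← zpow_add₀ hg.1]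
      congr 1
      ring
    rw [e2]
    show _ = _ * (castForm₀ K v' a * _)
    ring
  | zero =>
    refine ⟨0, hodgeForm_zero, ?_⟩
    rw [castForm_zero, transport_zero, smul_zero]
  | add x y _ _ hx hy =>
    obtain ⟨T₁, h1, h2⟩ := hx
    obtain ⟨T₂, h1', h2'⟩ := hy
    refine ⟨T₁ + T₂, hodgeForm_add h1 h1', ?_⟩
    rw [castForm_add, transport_add, h2, h2', castForm_add, smul_add]
  | smul q x _ hx =>
    obtain ⟨T₁, h1, h2⟩ := hx
    refine ⟨q • T₁, hodgeForm_smul q h1, ?_⟩
    rw [castForm_smul, transport_smul, h2, castForm_smul, smul_comm]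

end Pool.Agent.Results.MP_e2e4f5_ag.BigMonodromyTimesVariety
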