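import Pool.Agent.X227.UP.Abs

/-!
# The absolute Hodge conjecture for all powers: only finitely many factors matter

Let `W` be the cohomology of the complex manifolds of the smooth projective varieties over an
algebraically closed field `k ⊆ ℂ` with complex coefficients, with its rational Hodge structures
(`HodgeData`) and its comparison, through de Rham and étale cohomology, with the cohomologies for the
other embeddings of `k` (`Embeddings`; for `k = ℂ` these are the cohomologies of the conjugate
varieties). A Hodge class is absolute if for every other embedding it is related by the comparison to
a Hodge class. `AllAbsolute` says that all Hodge classes on a variety, of all degrees, are absolute,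
and `AbsoluteAll` says this for all powers of the variety.

Let `X i` be any family of odd-dimensional varieties, which may be infinite, such that homological and
numerical equivalence coincide on `X i`, the transcendental cohomology `T i` (the orthogonal
complement of all algebraic classes) is concentrated in the middle degree and not zero, the
Mumford-Tate group acts irreducibly on the Lie algebra `sp(T i)` of the operators on `T i` which are
skew for the intersection form, and these adjoint representations are pairwise not isomorphic
(examples: general complete intersections of odd dimension, general curves). Let `Z` be ANY variety.

The theorem: there is ONE finite set `B` of indices, which works for all powers of `Z` at once: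

(1) For all `n` and all lists `L` all Hodge classes on `Z^(n+1) × ∏_{i ∈ L} X i` are absolute if and
only if this holds for the products with the small sublists of `L`, which consist of elements of `B`:
for some degree `m` of the right parity the product of the numbers (exponent of `X i`) + 1 and the sum
of the `dim T i`, over the `i` which occur, are at most the Betti number `b_m(Z^(n+1))`.

(2) For all lists `L` all Hodge classes on all powers of `Z × ∏_{i ∈ L} X i` are absolute if and only
if this holds for `Z × ∏_{i ∈ L, i ∈ B} X i`: all factors which are not in `B` can be omitted. So the
conjecture for the powers of `Z` and all the infinitely many `X i` together is a question about `Z` and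
the finitely many `X i` with `i ∈ B`.

(3) `∑_{i ∈ B} dim sp(T i) ≤ b ^ 2` where `b` is the dimension of any sum of cohomology groups `H^m(Z)`,
`m ∈ S`, which generates the cohomology algebra of `Z`; in particular `b = dim H(Z)` is possible for all
`Z`, and `b = 2 dim A` if `Z = A` is an abelian variety. No `i ∈ B` is separated from `Z` by Hodge types
(`TypeSep`).

The idea of the proof: if the factor `X i` matters for some power of `Z` then `sp(T i)` acts by
derivations of `H(Z^(n+1))` which can be chosen to commute with all endomorphisms of `Z^(n+1)`, in
particular with the permutations of the factors; so they are determined by their restriction to the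
generators of the cohomology of one factor `Z`, and these restrictions are linearly independent for
the different `i`.
-/

open CategoryTheory AlgebraicGeometry

universe u

namespace Pool.Agent.Results.MP_e2e4f5_ag.FinitelyManyFactors

open Pool.Agent.H914 Pool.Agent.H914.VarClass Pool.Agent.H914.VarClass.Obj Pool.Agent.Y132.AH
  Pool.Agent.X227.MM Pool.Agent.X227.UP

variable {k : Type u} [Field k] {𝒱 : VarClass k} {ops : CycleOps 𝒱}

theorem result (W : WeilCohomology.{u, 0} ops) [IsAlgClosed W.K] (Ψ : HodgeData W)
    (E : Embeddings W) {ι : Type} [DecidableEq ι] (X : ι → 𝒱.Obj) (hX : SpFamily Ψ X)
    (Z : 𝒱.Obj) :
    ∃ B : Finset ι, GenBound W X Z B ∧ (∀ i ∈ B, ¬TypeSep Ψ (X i) Z) ∧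
      (∀ (n : ℕ) (L : List ι), AllAbsolute Ψ E (prodList X (powN Z n) L) ↔
        ∀ L' : List ι, L'.Sublist L → SmallDim W X (powN Z n) B L' →
          AllAbsolute Ψ E (prodList X (powN Z n) L')) ∧
      ∀ L : List ι, AbsoluteAll Ψ E (prodList X Z L) ↔
        AbsoluteAll Ψ E (prodList X Z (L.filter (· ∈ B))) :=
  abs_gen Ψ E Z hX

end Pool.Agent.Results.MP_e2e4f5_ag.FinitelyManyFactors
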