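import Mathlib
import Pool.Agent.X311.Sy

/-!
# Absolute Hodge classes on powers of a variety of Calabi-Yau type times any variety

Let `X` be a smooth projective variety such that the rational cohomology of `X` is spanned by algebraic
classes and by the cohomology `T` of one odd degree, of dimension `n`, which is a Hodge structure of
Calabi-Yau type: for an odd number `d` its classes are sums of classes of types `(p, q)` with
`|p - q| ≤ d`, and the classes with `p - q = d` form a line, spanned by `ω`. Examples are all Calabi-Yau
threefolds, and Fano varieties of Calabi-Yau type such as cubic sevenfolds (`d = 3`, `n = 170`). No
relation of these varieties to abelian varieties is known.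

Let `ω` be normalized such that one of its coordinates in a rational basis is `1`; the other coordinates
are the periods. Let `K` be any field of complex numbers, and suppose that `D` of the periods are
algebraically independent over `K`, with `2 D > n - 2`.

Let `Y` be ANY smooth projective variety which is of CM type or whose Hodge filtration is defined over
`K` (any variety over a number field if `K` contains the algebraic numbers and its periods, for
example an abelian variety).

**Theorem.** Let `C`, `CY` be the classes on `X ^ m × Y` and on `Y` of a system of classes, for example the
absolute Hodge classes (in the sense of de Rham, `ℓ`-adic or all cohomologies), the motivated classes or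
the classes of algebraic cycles. Then the classes in `C` are exactly the linear combinations of the
products of

* algebraic classes on some of the factors `X`;
* the middle components of the diagonals on pairs of other factors `X`;
* a class in `CY` on `Y`.

All Hodge classes on `X ^ m × Y` are in the system if and only if all Hodge classes on `Y` are.

So the absolute Hodge conjecture for `Y` is equivalent to that for `X ^ m × Y`. By Deligne's theorem it
holds for `X ^ m × A` for all `m` and all abelian varieties `A` which are of CM type or whose periods are
in `K`. For each class the theorem says more: a Hodge class on `X ^ m × Y` is absolute if and only if its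
components, which are Hodge classes on `Y`, are absolute. Absolute Hodge classes on `X ^ m × Y` are
algebraic if absolute Hodge classes on `Y` are.

The proof uses the description of the Hodge classes on `X ^ m × Y` (see
`MP_43e44c_ag.OddCalabiYauTimesVariety`), and the following nondegeneracy: let `Q` be a nondegenerate
alternating or symmetric rational form on `ℚ ^ n`; a nonzero combination of tensor products of copies of
`Q⁻¹` is not annihilated by all tensor products of copies of `Q`. Indeed there is a real matrix `N` with
`(NᵀN) Q⁻¹ (NᵀN) = ± Q`, so `NᵀN` maps the first kind of tensors to the second kind, and
`⟨w, NᵀN w⟩ = ⟨N w, N w⟩ > 0`.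
-/

namespace Pool.Agent.Results.MP_e2e4f5_ag.OddCalabiYauTimesVariety

open Pool.Agent.TH131.GHC Pool.Agent.TH504.VY Pool.Agent.X311 Pool.Agent.X311.CY

/-- **Absolute Hodge classes on powers of a variety of Calabi-Yau type times a variety.** Let `T` be
the cohomology of dimension `n` of a variety `X` of Calabi-Yau type of odd dimension, with one coordinate
of the period equal to `1` and `D` coordinates algebraically independent over the field `K` of complex
numbers, `2 D > n - 2`. Let `Y` be a variety of CM type or with Hodge filtration over `K`. Then for all
`m` and all systems of classes (absolute Hodge, motivated or algebraic classes) the classes on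
`X ^ m × Y` are the combinations of products of algebraic classes and diagonals on the factors `X` and
classes of the system on `Y`, and all Hodge classes on `X ^ m × Y` are in the system if and only if all
Hodge classes on `Y` are in the system. -/
theorem result {n : ℕ} (T : Period n) {i₀ : Fin n} (h0 : T.ω i₀ = 1)
    (K : Subfield ℂ) {D : ℕ} (p : Fin D → Fin n)
    (hp : AlgebraicIndependent K fun i => T.ω (p i)) (hD : n < 2 * D + 2)
    {v : ℕ} (V : Coh v) (hV : IsOfCMType V ∨ HasFiltrationOver K V) {s : ℕ} (hs : 0 < s) (m : ℕ)
    (C : Submodule ℚ ((Fin m → Fin s ⊕ Fin n) → Fin v → ℚ)) (CY : Submodule ℚ (Fin v → ℚ))
    (h : IsClassSystem T V C CY) :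
    C = standardTimes T s m CY ∧
      ((∀ t, IsHodgeOnProduct T V t → t ∈ C) ↔ ∀ y, IsHodgeOn V y → y ∈ CY) :=
  ⟨system_eq hV h0 p hp hD h, all_iff hV h0 p hp hD hs h⟩

end Pool.Agent.Results.MP_e2e4f5_ag.OddCalabiYauTimesVariety
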